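import Mathlib

namespace Pool.Agent.Results.MP_4e44b6_al.TraceZero

open Polynomial

abbrev M2 := Matrix (Fin 2) (Fin 2) ℝ

/-- A noncommutative polynomial in `x_0, ..., x_(m-1)` over the reals: a finitely supported family
of real coefficients indexed by the words (monomials). -/
abbrev NCPoly (m : ℕ) := List (Fin m) →₀ ℝ

/-- The value of `p` at the tuple `x` of elements of a real algebra. -/
noncomputable def value {m : ℕ} {A : Type} [Ring A] [Algebra ℝ A] (x : Fin m → A)
    (p : NCPoly m) : A :=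
  p.sum fun u c => c • (u.map x).prod

/-- Semihomogeneous: nonnegative integer weights and `d ≠ 0` such that every monomial of `p` has
weighted degree `d`. -/
def SemiHom {m : ℕ} (p : NCPoly m) : Prop :=
  ∃ (w : Fin m → ℕ) (d : ℤ), d ≠ 0 ∧ ∀ u ∈ p.support, (((u.map w).sum : ℕ) : ℤ) = d

/-- The image of `p` on the real 2 x 2 matrices. -/
def Im {m : ℕ} (p : NCPoly m) : Set M2 := Set.range fun x : Fin m → M2 => value x p

/-- The trace-zero matrices. -/
def sl2 : Set M2 := {M | M.trace = 0}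

abbrev PP := Polynomial (Polynomial ℝ)
abbrev HH := QuaternionAlgebra PP (C X) 0 X

/-- evaluation at `A = a`, `B = b` -/
noncomputable def ev (a b : ℝ) : PP →+* ℝ := eval₂RingHom (evalRingHom a) b

@[simp] theorem ev_X (a b : ℝ) : ev a b X = b := by simp [ev]
@[simp] theorem ev_CX (a b : ℝ) : ev a b (C X) = a := by simp [ev]
@[simp] theorem ev_CC (a b c : ℝ) : ev a b (C (C c)) = c := by simp [ev]
theorem ev_smul (a b c : ℝ) : ev a b (c • 1) = c := by
  rw [← Algebra.algebraMap_eq_smul_one]; exact ev_CC a b c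

noncomputable def rep1 (s b : ℝ) : HH →ₐ[ℝ] M2 where
  toFun q := !![ev (s^2) b q.re + s * ev (s^2) b q.imI,
                b * ev (s^2) b q.imJ + s * b * ev (s^2) b q.imK;
                ev (s^2) b q.imJ - s * ev (s^2) b q.imK,
                ev (s^2) b q.re - s * ev (s^2) b q.imI]
  map_one' := by ext i j; fin_cases i <;> fin_cases j <;> simp
  map_mul' p q := by
    ext i j; fin_cases i <;> fin_cases j <;> simp [Matrix.mul_apply, Fin.sum_univ_two] <;> ring
  map_zero' := by ext i j; fin_cases i <;> fin_cases j <;> simp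
  map_add' p q := by ext i j; fin_cases i <;> fin_cases j <;> simp <;> ring
  commutes' c := by
    ext i j; fin_cases i <;> fin_cases j <;>
      simp [Algebra.algebraMap_eq_smul_one, ev_smul]

noncomputable def rep2 (a s : ℝ) : HH →ₐ[ℝ] M2 where
  toFun q := !![ev a (s^2) q.re + s * ev a (s^2) q.imJ,
                a * ev a (s^2) q.imI - a * s * ev a (s^2) q.imK;
                ev a (s^2) q.imI + s * ev a (s^2) q.imK,
                ev a (s^2) q.re - s * ev a (s^2) q.imJ]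
  map_one' := by ext i j; fin_cases i <;> fin_cases j <;> simp
  map_mul' p q := by
    ext i j; fin_cases i <;> fin_cases j <;> simp [Matrix.mul_apply, Fin.sum_univ_two] <;> ring
  map_zero' := by ext i j; fin_cases i <;> fin_cases j <;> simp
  map_add' p q := by ext i j; fin_cases i <;> fin_cases j <;> simp <;> ring
  commutes' c := by
    ext i j; fin_cases i <;> fin_cases j <;>
      simp [Algebra.algebraMap_eq_smul_one, ev_smul]

noncomputable def FF (f1 f2 f3 : PP) : PP := C X * f1 ^ 2 + X * (f2 ^ 2 - C X * f3 ^ 2)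

theorem det1 (s b : ℝ) (q : HH) (h : (rep1 s b q).trace = 0) :
    (rep1 s b q).det = - ev (s^2) b (FF q.imI q.imJ q.imK) := by
  have h0 : ev (s^2) b q.re = 0 := by
    simp [rep1, Matrix.trace_fin_two] at h; linarith
  simp [rep1, Matrix.det_fin_two, FF, h0]; ring

theorem det2 (a s : ℝ) (q : HH) (h : (rep2 a s q).trace = 0) :
    (rep2 a s q).det = - ev a (s^2) (FF q.imI q.imJ q.imK) := by
  have h0 : ev a (s^2) q.re = 0 := by
    simp [rep2, Matrix.trace_fin_two] at h; linarith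
  simp [rep2, Matrix.det_fin_two, FF, h0]; ring

theorem par (l2 l3 : ℝ[X]) (h : l2 ^ 2 - X * l3 ^ 2 = 0) : l2 = 0 ∧ l3 = 0 := by
  have h' : l2 ^ 2 = X * l3 ^ 2 := sub_eq_zero.mp h
  by_cases h3 : l3 = 0
  · subst h3; simpa using h'
  · exfalso
    have := congrArg natDegree h'
    rw [natDegree_mul X_ne_zero (pow_ne_zero 2 h3), natDegree_pow, natDegree_pow, natDegree_X]
      at this
    omega

theorem exists_pos (l : ℝ[X]) (hl : l ≠ 0) : ∃ a : ℝ, 0 < a ∧ l.eval a ≠ 0 := by
  by_contra h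
  push Not at h
  exact hl (eq_zero_of_infinite_isRoot l ((Set.Ioi_infinite (0:ℝ)).mono fun a ha => h a ha))

theorem exists_neg (l : ℝ[X]) (hl : l ≠ 0) : ∃ a : ℝ, a < 0 ∧ l.eval a ≠ 0 := by
  by_contra h
  push Not at h
  exact hl (eq_zero_of_infinite_isRoot l ((Set.Iio_infinite (0:ℝ)).mono fun a ha => h a ha))

theorem ev_eq (a b : ℝ) (F : PP) : ev a b F = (F.map (evalRingHom a)).eval b := by
  simp [ev, eval_map]

/-- sign at `+∞` -/
theorem sgn_top (g : ℝ[X]) (h : 0 < g.leadingCoeff) : ∃ b : ℝ, 0 < b ∧ 0 < g.eval b := by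
  by_cases hd : 0 < g.degree
  · have := (tendsto_atTop_of_leadingCoeff_nonneg g hd h.le).eventually_gt_atTop 0
    obtain ⟨b, hb⟩ := (this.and (Filter.eventually_gt_atTop 0)).exists
    exact ⟨b, hb.2, hb.1⟩
  · have h0 := eq_C_of_degree_le_zero (not_lt.mp hd)
    refine ⟨1, one_pos, ?_⟩
    rw [h0] at h ⊢
    simpa using h

theorem sgn_top' (g : ℝ[X]) (h : g.leadingCoeff < 0) : ∃ b : ℝ, 0 < b ∧ g.eval b < 0 := by
  obtain ⟨b, hb, hg⟩ := sgn_top (-g) (by simpa using h)
  exact ⟨b, hb, by simpa using hg⟩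

theorem odd_both (g : ℝ[X]) (h : Odd g.natDegree) :
    (∃ b : ℝ, 0 < g.eval b) ∧ ∃ b : ℝ, g.eval b < 0 := by
  have hg : g ≠ 0 := by rintro rfl; simp at h
  have hl : (g.comp (-X)).leadingCoeff = - g.leadingCoeff := by
    rw [leadingCoeff_comp (by simp)]
    simp [h.neg_one_pow]
  rcases lt_or_gt_of_ne (leadingCoeff_ne_zero.mpr hg) with h1 | h1
  · obtain ⟨b, -, hb⟩ := sgn_top' g h1
    obtain ⟨c, -, hc⟩ := sgn_top (g.comp (-X)) (by rw [hl]; linarith)
    exact ⟨⟨-c, by simpa using hc⟩, b, hb⟩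
  · obtain ⟨b, -, hb⟩ := sgn_top g h1
    obtain ⟨c, -, hc⟩ := sgn_top' (g.comp (-X)) (by rw [hl]; linarith)
    exact ⟨⟨b, hb⟩, -c, by simpa using hc⟩

theorem map_lead (a : ℝ) (F : PP) (h : F.leadingCoeff.eval a ≠ 0) :
    (F.map (evalRingHom a)).natDegree = F.natDegree ∧
      (F.map (evalRingHom a)).leadingCoeff = F.leadingCoeff.eval a :=
  ⟨natDegree_map_of_leadingCoeff_ne_zero _ h, leadingCoeff_map_of_leadingCoeff_ne_zero _ h⟩

theorem v_even (f2 f3 : PP) (h : ¬ (f2 = 0 ∧ f3 = 0)) :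
    f2 ^ 2 - C X * f3 ^ 2 ≠ 0 ∧ Even (f2 ^ 2 - C X * f3 ^ 2).natDegree := by
  set e := max f2.natDegree f3.natDegree with he
  have h2 : f2.natDegree ≤ e := le_max_left _ _
  have h3 : f3.natDegree ≤ e := le_max_right _ _
  have hc : (f2 ^ 2 - C X * f3 ^ 2).coeff (2 * e) = (f2.coeff e) ^ 2 - X * (f3.coeff e) ^ 2 := by
    rw [coeff_sub, coeff_C_mul, coeff_pow_of_natDegree_le h2, coeff_pow_of_natDegree_le h3]
  have hne : (f2 ^ 2 - C X * f3 ^ 2).coeff (2 * e) ≠ 0 := by
    rw [hc]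
    intro h0
    obtain ⟨a2, a3⟩ := par _ _ h0
    apply h
    rcases le_total f2.natDegree f3.natDegree with hh | hh
    · have e3 : e = f3.natDegree := max_eq_right hh
      have z3 : f3 = 0 := by rw [e3] at a3; exact leadingCoeff_eq_zero.mp a3
      have e0 : e = 0 := by rw [e3, z3]; simp
      have : f2.natDegree = e := by omega
      exact ⟨by rw [← this] at a2; exact leadingCoeff_eq_zero.mp a2, z3⟩
    · have e2 : e = f2.natDegree := max_eq_left hh
      have z2 : f2 = 0 := by rw [e2] at a2; exact leadingCoeff_eq_zero.mp a2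
      have e0 : e = 0 := by rw [e2, z2]; simp
      have : f3.natDegree = e := by omega
      exact ⟨z2, by rw [← this] at a3; exact leadingCoeff_eq_zero.mp a3⟩
  have hle : (f2 ^ 2 - C X * f3 ^ 2).natDegree ≤ 2 * e := by
    refine (natDegree_sub_le _ _).trans (max_le ?_ ?_)
    · rw [natDegree_pow]; omega
    · refine (natDegree_C_mul_le _ _).trans ?_
      rw [natDegree_pow]; omega
  refine ⟨fun h0 => hne (by rw [h0]; simp), ?_⟩
  rw [le_antisymm hle (le_natDegree_of_ne_zero hne)]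
  exact even_two_mul e

theorem dich (f1 f2 f3 : PP) (h : ¬ (f1 = 0 ∧ f2 = 0 ∧ f3 = 0)) :
    Odd (FF f1 f2 f3).natDegree ∨
      (f1 ≠ 0 ∧ (FF f1 f2 f3).leadingCoeff = X * f1.leadingCoeff ^ 2) := by
  have hu : (C X * f1 ^ 2 : PP).leadingCoeff = X * f1.leadingCoeff ^ 2 := by
    rw [leadingCoeff_mul, leadingCoeff_C, leadingCoeff_pow]
  by_cases h23 : f2 = 0 ∧ f3 = 0
  · right
    refine ⟨fun h1 => h ⟨h1, h23⟩, ?_⟩
    rw [← hu]; simp [FF, h23.1, h23.2]
  · obtain ⟨hv, k, hk⟩ := v_even f2 f3 h23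
    have hw : (X * (f2 ^ 2 - C X * f3 ^ 2)).natDegree = 2 * k + 1 := by
      rw [natDegree_mul X_ne_zero hv, natDegree_X, hk]; ring
    by_cases h1 : f1 = 0
    · left
      have : FF f1 f2 f3 = X * (f2 ^ 2 - C X * f3 ^ 2) := by simp [FF, h1]
      rw [this, hw]; exact odd_two_mul_add_one k
    · have hd : (C X * f1 ^ 2 : PP).natDegree = 2 * f1.natDegree := by
        rw [natDegree_C_mul X_ne_zero, natDegree_pow]
      rcases lt_or_gt_of_ne (show 2 * f1.natDegree ≠ 2 * k + 1 by omega) with hh | hh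
      · left
        rw [FF, natDegree_add_eq_right_of_natDegree_lt (by rw [hd, hw]; exact hh), hw]
        exact odd_two_mul_add_one k
      · right
        refine ⟨h1, ?_⟩
        rw [← hu, FF]
        exact leadingCoeff_add_of_degree_lt' (degree_lt_degree (by rw [hd, hw]; exact hh))

theorem signs (f1 f2 f3 : PP) (h : ¬ (f1 = 0 ∧ f2 = 0 ∧ f3 = 0)) :
    (∃ a b : ℝ, (0 < a ∨ 0 < b) ∧ 0 < ev a b (FF f1 f2 f3)) ∧
      ∃ a b : ℝ, (0 < a ∨ 0 < b) ∧ ev a b (FF f1 f2 f3) < 0 := by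
  rcases dich f1 f2 f3 h with ho | ⟨h1, hl⟩
  · have hF : FF f1 f2 f3 ≠ 0 := by intro h0; rw [h0] at ho; simp at ho
    obtain ⟨a, ha, hla⟩ := exists_pos _ (leadingCoeff_ne_zero.mpr hF)
    obtain ⟨⟨b, hb⟩, c, hc⟩ := odd_both ((FF f1 f2 f3).map (evalRingHom a))
      (by rw [(map_lead a _ hla).1]; exact ho)
    exact ⟨⟨a, b, Or.inl ha, by rw [ev_eq]; exact hb⟩, a, c, Or.inl ha, by rw [ev_eq]; exact hc⟩
  · have hl1 := leadingCoeff_ne_zero.mpr h1
    constructor
    · obtain ⟨a, ha, hla⟩ := exists_pos _ hl1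
      have hp : 0 < (FF f1 f2 f3).leadingCoeff.eval a := by
        rw [hl]; simp only [eval_mul, eval_X, eval_pow]; positivity
      obtain ⟨b, hb, hg⟩ := sgn_top _ (by rw [(map_lead a _ hp.ne').2]; exact hp)
      exact ⟨a, b, Or.inr hb, by rw [ev_eq]; exact hg⟩
    · obtain ⟨a, ha, hla⟩ := exists_neg _ hl1
      have hp : (FF f1 f2 f3).leadingCoeff.eval a < 0 := by
        rw [hl]; simp only [eval_mul, eval_X, eval_pow]
        exact mul_neg_of_neg_of_pos ha (by positivity)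
      obtain ⟨b, hb, hg⟩ := sgn_top' _ (by rw [(map_lead a _ hp.ne).2]; exact hp)
      exact ⟨a, b, Or.inr hb, by rw [ev_eq]; exact hg⟩

theorem nat {m : ℕ} {A B : Type} [Ring A] [Algebra ℝ A] [Ring B] [Algebra ℝ B]
    (φ : A →ₐ[ℝ] B) (y : Fin m → A) (p : NCPoly m) :
    φ (value y p) = value (fun l => φ (y l)) p := by
  simp only [value, Finsupp.sum, map_sum, map_smul, map_list_prod, List.map_map]
  rfl

theorem both {m : ℕ} (p : NCPoly m) (htr : ∀ x : Fin m → M2, (value x p).trace = 0)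
    (hne : ∃ x : Fin m → M2, value x p ≠ 0) :
    (∃ x : Fin m → M2, 0 < (value x p).det) ∧ ∃ x : Fin m → M2, (value x p).det < 0 := by
  obtain ⟨x, hx⟩ := hne
  let y : Fin m → HH := fun l => ⟨C (C ((x l 0 0 + x l 1 1) / 2)), C (C ((x l 0 0 - x l 1 1) / 2)),
    C (C ((x l 0 1 + x l 1 0) / 2)), C (C ((x l 0 1 - x l 1 0) / 2))⟩
  have hy : (fun l => rep1 1 1 (y l)) = x := by
    funext l; ext i j; fin_cases i <;> fin_cases j <;> simp [rep1, y] <;> ring
  set q := value y p with hq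
  have key : ∀ a b : ℝ, (0 < a ∨ 0 < b) → ∃ z : Fin m → M2,
      (value z p).det = - ev a b (FF q.imI q.imJ q.imK) := by
    rintro a b (ha | hb)
    · refine ⟨fun l => rep1 (√a) b (y l), ?_⟩
      rw [← nat, det1 _ _ _ (by rw [nat]; exact htr _), Real.sq_sqrt ha.le]
    · refine ⟨fun l => rep2 a (√b) (y l), ?_⟩
      rw [← nat, det2 _ _ _ (by rw [nat]; exact htr _), Real.sq_sqrt hb.le]
  have hnz : ¬ (q.imI = 0 ∧ q.imJ = 0 ∧ q.imK = 0) := by
    rintro ⟨h1, h2, h3⟩
    apply hx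
    have ht : (rep1 1 1 q).trace = 0 := by rw [hq, nat]; exact htr _
    rw [← hy, ← nat, ← hq]
    have h0 : ev (1^2) 1 q.re = 0 := by
      simp [rep1, Matrix.trace_fin_two] at ht; simpa using ht
    ext i j; fin_cases i <;> fin_cases j <;> simp [rep1, h1, h2, h3] <;> simpa using h0
  obtain ⟨⟨a, b, hab, h1⟩, c, d, hcd, h2⟩ := signs _ _ _ hnz
  obtain ⟨z, hz⟩ := key a b hab
  obtain ⟨w, hw⟩ := key c d hcd
  exact ⟨⟨w, by rw [hw]; linarith⟩, z, by rw [hz]; linarith⟩

def conj (P Q : M2) (h1 : P * Q = 1) (h2 : Q * P = 1) : M2 →ₐ[ℝ] M2 where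
  toFun M := Q * M * P
  map_one' := by rw [mul_one, h2]
  map_mul' M N := by
    calc Q * (M * N) * P = Q * M * (P * Q) * N * P := by rw [h1]; noncomm_ring
      _ = Q * M * P * (Q * N * P) := by noncomm_ring
  map_zero' := by simp
  map_add' M N := by noncomm_ring
  commutes' c := by simp [Algebra.algebraMap_eq_smul_one, h2]

theorem comp_form (M : M2) (ht : M.trace = 0) (h0 : M ≠ 0) :
    ∃ P : M2, P.det ≠ 0 ∧ M * P = P * !![0, -M.det; 1, 0] := by
  have ht' : M 1 1 = - M 0 0 := by rw [Matrix.trace_fin_two] at ht; linarith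
  by_cases h1 : M 1 0 = 0
  · by_cases h2 : M 0 1 = 0
    · have h3 : M 0 0 ≠ 0 := by
        intro h3; apply h0
        ext i j; fin_cases i <;> fin_cases j <;> simp [h1, h2, h3, ht']
      refine ⟨!![1, M 0 0; 1, - M 0 0], ?_, ?_⟩
      · simp [Matrix.det_fin_two]; intro h; apply h3; linarith
      · ext i j; fin_cases i <;> fin_cases j <;>
          simp [Matrix.mul_apply, Fin.sum_univ_two, Matrix.det_fin_two, h1, h2, ht']
    · refine ⟨!![0, M 0 1; 1, M 1 1], by simpa [Matrix.det_fin_two] using h2, ?_⟩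
      ext i j; fin_cases i <;> fin_cases j <;>
        simp [Matrix.mul_apply, Fin.sum_univ_two, Matrix.det_fin_two, h1, ht'] <;> ring
  · refine ⟨!![1, M 0 0; 0, M 1 0], by simpa [Matrix.det_fin_two] using h1, ?_⟩
    ext i j; fin_cases i <;> fin_cases j <;>
      simp [Matrix.mul_apply, Fin.sum_univ_two, Matrix.det_fin_two, ht'] <;> ring

theorem im_conj {m : ℕ} (p : NCPoly m) (M N P : M2) (hP : P.det ≠ 0) (h : M * P = P * N) :
    M ∈ Im p ↔ N ∈ Im p := by
  have hu : IsUnit P.det := isUnit_iff_ne_zero.mpr hP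
  have h1 : P * P⁻¹ = 1 := Matrix.mul_nonsing_inv P hu
  have h2 : P⁻¹ * P = 1 := Matrix.nonsing_inv_mul P hu
  constructor
  · rintro ⟨x, hx⟩
    refine ⟨fun l => conj P P⁻¹ h1 h2 (x l), ?_⟩
    have hx' : value x p = M := hx
    show value _ p = N
    rw [← nat, hx']
    show P⁻¹ * M * P = N
    rw [mul_assoc, h, ← mul_assoc, h2, one_mul]
  · rintro ⟨x, hx⟩
    refine ⟨fun l => conj P⁻¹ P h2 h1 (x l), ?_⟩
    have hx' : value x p = N := hx
    show value _ p = M
    rw [← nat, hx']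
    show P * N * P⁻¹ = M
    rw [← h, mul_assoc, h1, mul_one]

theorem im_same {m : ℕ} (p : NCPoly m) (M N : M2) (hM : M.trace = 0) (hN : N.trace = 0)
    (hM0 : M ≠ 0) (hN0 : N ≠ 0) (hd : M.det = N.det) (h : M ∈ Im p) : N ∈ Im p := by
  obtain ⟨P, hP, h1⟩ := comp_form M hM hM0
  obtain ⟨Q, hQ, h2⟩ := comp_form N hN hN0
  rw [im_conj p _ _ Q hQ h2, ← hd, ← im_conj p _ _ P hP h1]
  exact h

theorem scale_word {m : ℕ} (w : Fin m → ℕ) (c : ℝ) (x : Fin m → M2) (u : List (Fin m)) :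
    (u.map fun l => c ^ w l • x l).prod = c ^ (u.map w).sum • (u.map x).prod := by
  induction u with
  | nil => simp
  | cons a u ih => simp [ih, pow_add, smul_smul, mul_comm]

theorem im_scale {m : ℕ} (p : NCPoly m) (hp : SemiHom p) :
    ∃ d : ℕ, d ≠ 0 ∧ ∀ (c : ℝ) (M : M2), M ∈ Im p → c ^ d • M ∈ Im p := by
  obtain ⟨w, d, hd, hw⟩ := hp
  refine ⟨d.natAbs, Int.natAbs_ne_zero.mpr hd, ?_⟩
  rintro c M ⟨x, rfl⟩
  refine ⟨fun l => c ^ w l • x l, ?_⟩
  simp only [value, Finsupp.sum, Finset.smul_sum]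
  refine Finset.sum_congr rfl fun u hu => ?_
  rw [scale_word, ← hw u hu, Int.natAbs_natCast, smul_comm]

theorem classify {m : ℕ} (p : NCPoly m) (hp : SemiHom p) (hs : Im p ⊆ sl2) :
    Im p = {0} ∨ Im p = sl2 ∨ Im p = sl2 \ {M | M ≠ 0 ∧ M.det = 0} := by
  obtain ⟨d, hd, hsc⟩ := im_scale p hp
  have hz : (0 : M2) ∈ Im p := by
    have := hsc 0 _ ⟨fun _ => 0, rfl⟩
    rwa [zero_pow hd, zero_smul] at this
  by_cases hne : ∃ x : Fin m → M2, value x p ≠ 0
  · right
    obtain ⟨⟨x, hx⟩, z, hz'⟩ := both p (fun x => hs ⟨x, rfl⟩) hne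
    have gen : ∀ M N : M2, M ∈ Im p → N ∈ sl2 → 0 < N.det / M.det → N ∈ Im p := by
      intro M N hM hN hpos
      have hM0 : M.det ≠ 0 := by intro h; rw [h, div_zero] at hpos; exact lt_irrefl _ hpos
      have hN0 : N.det ≠ 0 := by intro h; rw [h, zero_div] at hpos; exact lt_irrefl _ hpos
      obtain ⟨c, hc⟩ : ∃ c : ℝ, c ^ (2 * d) = N.det / M.det :=
        ⟨(N.det / M.det) ^ (((2 * d : ℕ) : ℝ)⁻¹),
          Real.rpow_inv_natCast_pow hpos.le (by omega)⟩
      have hdet : (c ^ d • M).det = N.det := by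
        rw [Matrix.det_smul, Fintype.card_fin, ← pow_mul, mul_comm d 2, hc]; field_simp
      have hmem := hsc c M hM
      refine im_same p _ N (hs hmem) hN ?_ ?_ hdet hmem
      · intro h; rw [h, Matrix.det_zero] at hdet; exact hN0 hdet.symm
      · intro h; rw [h, Matrix.det_zero] at hN0; exact hN0 rfl
    have big : ∀ N ∈ sl2, ¬ (N ≠ 0 ∧ N.det = 0) → N ∈ Im p := by
      intro N hN h
      rcases lt_trichotomy N.det 0 with h1 | h1 | h1
      · exact gen _ N ⟨z, rfl⟩ hN (div_pos_of_neg_of_neg h1 hz')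
      · have : N = 0 := by by_contra h2; exact h ⟨h2, h1⟩
        rw [this]; exact hz
      · exact gen _ N ⟨x, rfl⟩ hN (div_pos h1 hx)
    by_cases hn : ∃ M ∈ Im p, M ≠ 0 ∧ M.det = 0
    · left
      obtain ⟨M, hM, hM0, hMd⟩ := hn
      refine Set.Subset.antisymm hs fun N hN => ?_
      by_cases h : N ≠ 0 ∧ N.det = 0
      · exact im_same p M N (hs hM) hN hM0 h.1 (by rw [hMd, h.2]) hM
      · exact big N hN h
    · right
      exact Set.Subset.antisymm (fun N hN => ⟨hs hN, fun h => hn ⟨N, hN, h⟩⟩)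
        fun N hN => big N hN.1 hN.2
  · left
    push Not at hne
    refine Set.Subset.antisymm ?_ (Set.singleton_subset_iff.mpr hz)
    rintro _ ⟨x, rfl⟩
    exact hne x

theorem value_add {m : ℕ} (x : Fin m → M2) (p q : NCPoly m) :
    value x (p + q) = value x p + value x q :=
  Finsupp.sum_add_index' (by simp) (by intros; rw [add_smul])

theorem value_single {m : ℕ} (x : Fin m → M2) (u : List (Fin m)) (c : ℝ) :
    value x (Finsupp.single u c) = c • (u.map x).prod :=
  Finsupp.sum_single_index (by simp)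

def Len {m : ℕ} (n : ℕ) (p : NCPoly m) : Prop := ∀ u ∈ p.support, u.length = n

theorem Len.add {m n : ℕ} {p q : NCPoly m} (hp : Len n p) (hq : Len n q) : Len n (p + q) := by
  classical
  intro u hu
  rcases Finset.mem_union.mp (Finsupp.support_add hu) with h | h
  exacts [hp u h, hq u h]

theorem Len.single {m n : ℕ} (u : List (Fin m)) (c : ℝ) (h : u.length = n) :
    Len n (Finsupp.single u c) := by
  intro v hv
  rw [Finset.mem_singleton.mp (Finsupp.support_single_subset hv), h]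

theorem Len.semi {m n : ℕ} {p : NCPoly m} (hp : Len n p) (hn : n ≠ 0) : SemiHom p :=
  ⟨fun _ => 1, n, by exact_mod_cast hn, fun u hu => by simp [hp u hu]⟩

noncomputable def p1 : NCPoly 2 := Finsupp.single [0, 1] 1 + Finsupp.single [1, 0] (-1)

noncomputable def p3 : NCPoly 2 :=
  Finsupp.single [0, 1, 0, 1, 0, 1] 1 + Finsupp.single [0, 1, 0, 1, 1, 0] (-1)
  + Finsupp.single [0, 1, 1, 0, 0, 1] (-1) + Finsupp.single [0, 1, 1, 0, 1, 0] 1
  + Finsupp.single [1, 0, 0, 1, 0, 1] (-1) + Finsupp.single [1, 0, 0, 1, 1, 0] 1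
  + Finsupp.single [1, 0, 1, 0, 0, 1] 1 + Finsupp.single [1, 0, 1, 0, 1, 0] (-1)

theorem v1 (x : Fin 2 → M2) : value x p1 = x 0 * x 1 - x 1 * x 0 := by
  simp only [p1, value_add, value_single, List.map_cons, List.map_nil, List.prod_cons,
    List.prod_nil, one_smul, neg_smul, mul_one, sub_eq_add_neg]

theorem v3 (x : Fin 2 → M2) : value x p3 = (x 0 * x 1 - x 1 * x 0) ^ 3 := by
  simp only [p3, value_add, value_single, List.map_cons, List.map_nil, List.prod_cons,
    List.prod_nil, one_smul, neg_smul, mul_one]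
  noncomm_ring

theorem cube (r : M2) (h : r.trace = 0) : r ^ 3 = (-r.det) • r := by
  have ht' : r 1 1 = - r 0 0 := by rw [Matrix.trace_fin_two] at h; linarith
  ext i j; fin_cases i <;> fin_cases j <;>
    simp [pow_succ, Matrix.mul_apply, Fin.sum_univ_two, Matrix.det_fin_two, ht'] <;> ring

theorem trc (a b : M2) : (a * b - b * a).trace = 0 := by
  rw [Matrix.trace_sub, Matrix.trace_mul_comm, sub_self]

theorem result (S : Set (Matrix (Fin 2) (Fin 2) ℝ)) :
    (∃ (m : ℕ) (p : NCPoly m), SemiHom p ∧ Im p = S ∧ S ⊆ sl2) ↔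
      (S = {0} ∨ S = sl2 ∨ S = sl2 \ {M | M ≠ 0 ∧ M.det = 0}) := by
  constructor
  · rintro ⟨m, p, hp, rfl, hs⟩
    exact classify p hp hs
  · have s1 : SemiHom p1 := by
      refine Len.semi (n := 2) ?_ (by norm_num)
      unfold p1
      repeat (first | exact Len.single _ _ rfl | apply Len.add)
    have s3 : SemiHom p3 := by
      refine Len.semi (n := 6) ?_ (by norm_num)
      unfold p3
      repeat (first | exact Len.single _ _ rfl | apply Len.add)
    have t1 : Im p1 ⊆ sl2 := by rintro _ ⟨x, rfl⟩; show (value x p1).trace = 0; rw [v1, trc]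
    have t3 : Im p3 ⊆ sl2 := by
      rintro _ ⟨x, rfl⟩; show (value x p3).trace = 0
      rw [v3, cube _ (trc _ _), Matrix.trace_smul, trc, smul_zero]
    have e12 : (!![0, 1; 0, 0] : M2) ≠ 0 := by
      intro h; simpa using congrFun (congrFun h 0) 1
    rintro (rfl | rfl | rfl)
    · refine ⟨0, 0, ⟨fun _ => 0, 1, one_ne_zero, by simp⟩, ?_, ?_⟩
      · ext M; simp [Im, value, eq_comm]
      · rintro _ rfl; simp [sl2]
    · have hm : (!![0, 1; 0, 0] : M2) ∈ Im p1 := by
        refine ⟨![!![1, 0; 0, 0], !![0, 1; 0, 0]], ?_⟩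
        show value _ p1 = _
        rw [v1]; ext i j; fin_cases i <;> fin_cases j <;> simp
      refine ⟨2, p1, s1, ?_, subset_rfl⟩
      rcases classify p1 s1 t1 with h | h | h
      · rw [h] at hm; exact absurd hm e12
      · exact h
      · rw [h] at hm; exact absurd ⟨e12, by simp [Matrix.det_fin_two]⟩ hm.2
    · refine ⟨2, p3, s3, ?_, Set.diff_subset⟩
      rcases classify p3 s3 t3 with h | h | h
      · have hm : (!![1, 0; 0, -1] : M2) ∈ Im p3 := by
          refine ⟨![!![0, 1; 0, 0], !![0, 0; 1, 0]], ?_⟩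
          show value _ p3 = _
          rw [v3]; ext i j; fin_cases i <;> fin_cases j <;>
            simp [pow_succ, Matrix.mul_apply, Fin.sum_univ_two]
        rw [h] at hm
        exact absurd (congrFun (congrFun (Set.mem_singleton_iff.mp hm) 0) 0) (by simp)
      · exfalso
        have hm : (!![0, 1; 0, 0] : M2) ∈ Im p3 := by
          rw [h]; simp [sl2, Matrix.trace_fin_two]
        obtain ⟨x, hx⟩ := hm
        have hx' : value x p3 = !![0, 1; 0, 0] := hx
        have hd := congrArg Matrix.det hx'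
        rw [v3, Matrix.det_pow] at hd
        have hd0 : (x 0 * x 1 - x 1 * x 0).det = 0 := by
          apply pow_eq_zero_iff (n := 3) (by norm_num) |>.mp
          rw [hd]; simp [Matrix.det_fin_two]
        rw [v3, cube _ (trc _ _), hd0, neg_zero, zero_smul] at hx'
        exact e12 hx'.symm
      · exact h

end Pool.Agent.Results.MP_4e44b6_al.TraceZero
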